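import Pool.Agent.Lib.MP_d55432_al.G2.H70.PARAM

/-!
# G2: the module DER

Inner derivations, and the invariance of the quadratic form.
-/

namespace Pool.Agent.Lib.MP_d55432_al.G2.H70

open Matrix

variable {K : Type*} [Field K]

theorem DD_mulVec (x y z : V7 K) :
    DD x y *ᵥ z = br x (br y z) - br y (br x z) + br (br x y) z := by
  rw [DD, add_mulVec, sub_mulVec, ← mulVec_mulVec, ← mulVec_mulVec, adM_mulVec, adM_mulVec,
    adM_mulVec, adM_mulVec, adM_mulVec]

theorem mulVec_ee (A : M7 K) (i j : Fin 7) : (A *ᵥ ee j) i = A i j := by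
  simp [ee, mulVec, dotProduct, Pi.single_apply]

theorem DD_apply (x y : V7 K) (i j : Fin 7) :
    DD x y i j = br x (br y (ee j)) i - br y (br x (ee j)) i + br (br x y) (ee j) i := by
  have h := mulVec_ee (DD x y) i j
  rw [DD_mulVec] at h
  exact h.symm

theorem DD_eq (x y : V7 K) : DD x y = gM (pr (DD x y)) := by
  ext i j
  fin_cases i <;> fin_cases j <;>
    simp [gM, pr, DD_apply] <;> simp [br, ee] <;> ring

theorem DD_mem (x y : V7 K) : DD x y ∈ g2 K := by
  rw [DD_eq]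
  exact mem_of_gM _

/-- Matrices with the same action on vectors are equal. -/
theorem ext_mulVec {A B : M7 K} (h : ∀ z : V7 K, A *ᵥ z = B *ᵥ z) : A = B := by
  ext i j
  rw [← mulVec_ee A, ← mulVec_ee B, h]

theorem DD_conj {g h : M7 K} (H : IsG g h) (x y : V7 K) :
    DD (g *ᵥ x) (g *ᵥ y) = g * DD x y * h := by
  apply ext_mulVec
  intro z
  have hz : g *ᵥ (h *ᵥ z) = z := by rw [mulVec_mulVec, H.1, one_mulVec]
  have e : (g * DD x y * h) *ᵥ z = g *ᵥ (DD x y *ᵥ (h *ᵥ z)) := by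
    rw [mulVec_mulVec, mulVec_mulVec, Matrix.mul_assoc]
  rw [e]
  simp only [DD_mulVec, mulVec_add, mulVec_sub, H.2.2, hz]

theorem forms [CharZero K] {g h : M7 K} (H : IsG g h) (x y : V7 K) :
    (4 * qq (g *ᵥ x) - 4 * qq x) • (g *ᵥ y) =
      (2 * bb (g *ᵥ x) (g *ᵥ y) - 2 * bb x y) • (g *ᵥ x) := by
  have h1 : g *ᵥ br x (br x y) = g *ᵥ br x (br x y) := rfl
  conv_lhs at h1 => rw [H.2.2, H.2.2, br_br]
  conv_rhs at h1 => rw [br_br, mulVec_sub, mulVec_smul, mulVec_smul]
  rw [sub_smul, sub_smul]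
  have h2 : ∀ a b c d : V7 K, a - b = c - d → a - c = b - d := by
    intro a b c d h
    rw [sub_eq_sub_iff_add_eq_add] at h ⊢
    rw [h, add_comm]
  exact h2 _ _ _ _ h1

theorem qq_inv [CharZero K] {g h : M7 K} (H : IsG g h) (x : V7 K) : qq (g *ᵥ x) = qq x := by
  by_cases hx : x = 0
  · rw [hx, mulVec_zero]
  · set w := g *ᵥ x with hw
    have hw0 : w ≠ 0 := by
      intro h0
      apply hx
      have : h *ᵥ w = 0 := by rw [h0, mulVec_zero]
      rwa [hw, mulVec_mulVec, H.2.1, one_mulVec] at this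
    obtain ⟨i, hi⟩ := Function.ne_iff.1 hw0
    obtain ⟨j, hj⟩ : ∃ j : Fin 7, j ≠ i := ⟨i + 1, by simp⟩
    have hz : g *ᵥ (h *ᵥ (ee j : V7 K)) = ee j := by rw [mulVec_mulVec, H.1, one_mulVec]
    have hf := forms H x (h *ᵥ ee j)
    rw [hz, ← hw] at hf
    set A := 4 * qq w - 4 * qq x with hA
    set B := 2 * bb w (ee j) - 2 * bb x (h *ᵥ ee j) with hB
    have h1 := congrFun hf i
    have h2 := congrFun hf j
    simp [ee, Ne.symm hj] at h1 h2
    have hB0 : B = 0 := by
      rcases h1 with h1 | h1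
      · exact h1
      · exact absurd h1 hi
    rw [hB0, zero_mul] at h2
    have h3 : (4 : K) * (qq w - qq x) = 0 := by linear_combination h2
    rcases mul_eq_zero.1 h3 with h4 | h4
    · norm_num at h4
    · exact sub_eq_zero.1 h4

theorem bb_eq (x y : V7 K) : bb x y = qq (x + y) - qq x - qq y := by
  simp only [bb, qq, Pi.add_apply]
  ring

theorem bb_inv [CharZero K] {g h : M7 K} (H : IsG g h) (x y : V7 K) :
    bb (g *ᵥ x) (g *ᵥ y) = bb x y := by
  rw [bb_eq, bb_eq, ← mulVec_add, qq_inv H, qq_inv H, qq_inv H]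

theorem bb_skew [CharZero K] {X : M7 K} (hX : X ∈ g2 K) (x y : V7 K) :
    bb (X *ᵥ x) y + bb x (X *ᵥ y) = 0 := by
  rw [eq_gM X hX]
  generalize pr X = f
  simp [bb, gM, mulVec, dotProduct, Fin.sum_univ_succ]
  ring

theorem cyc [CharZero K] (x y z : V7 K) :
    DD (br x y) z + DD (br y z) x + DD (br z x) y = 0 := by
  have h := eq_gM _ (add_mem (add_mem (DD_mem (br x y) z) (DD_mem (br y z) x))
    (DD_mem (br z x) y))
  have h0 : pr (DD (br x y) z + DD (br y z) x + DD (br z x) y) = 0 := by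
    funext i
    fin_cases i <;> simp [pr, DD_apply] <;> simp [br, ee] <;> ring
  rw [h, h0]
  ext i j
  fin_cases i <;> fin_cases j <;> simp [gM]

/-- DER. -/
theorem der (K : Type*) [Field K] [CharZero K] : DER_S K :=
  ⟨DD_mem, fun _ _ H x y => DD_conj H x y, fun _ _ H x => qq_inv H x,
    fun _ _ H x y => bb_inv H x y, fun _ hX x y => bb_skew hX x y, cyc⟩

end Pool.Agent.Lib.MP_d55432_al.G2.H70
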