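import Pool.Agent.Lib.MP_d55432_al.G2.Iface

/-!
# G2: the module PARAM

The derivations of the trace zero octonions are the matrices `gM f`.
-/

namespace Pool.Agent.Lib.MP_d55432_al.G2.H70

open Matrix

variable {K : Type*} [Field K]

/-- The defect of the derivation rule on two basis vectors. -/
def rl (X : M7 K) (a b i : Fin 7) : K :=
  ∑ k, X i k * br (ee a) (ee b) k - br (fun k => X k a) (ee b) i - br (ee a) (fun k => X k b) i

theorem rule (X : M7 K) (hX : X ∈ g2 K) (a b i : Fin 7) : rl X a b i = 0 := by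
  have h := congrFun (hX (ee a) (ee b)) i
  have e : ∀ c : Fin 7, X *ᵥ ee c = fun k => X k c := by
    intro c
    funext k
    simp [ee, mulVec, dotProduct, Pi.single_apply]
  rw [e, e] at h
  simp only [mulVec, dotProduct, Pi.add_apply] at h
  rw [rl, h]
  ring

theorem d011 (X : M7 K) (hX : X ∈ g2 K) : (-2) * X 0 0 = 0 := by
  have h := rule X hX 0 1 1
  rw [← h]
  simp [rl, br, ee, Fin.sum_univ_succ]
  try ring

theorem d141 (X : M7 K) (hX : X ∈ g2 K) : (2) * X 0 4 + (1) * X 1 0 = 0 := by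
  have h := rule X hX 1 4 1
  rw [← h]
  simp [rl, br, ee, Fin.sum_univ_succ]
  try ring

theorem d252 (X : M7 K) (hX : X ∈ g2 K) : (2) * X 0 5 + (1) * X 2 0 = 0 := by
  have h := rule X hX 2 5 2
  rw [← h]
  simp [rl, br, ee, Fin.sum_univ_succ]
  try ring

theorem d363 (X : M7 K) (hX : X ∈ g2 K) : (2) * X 0 6 + (1) * X 3 0 = 0 := by
  have h := rule X hX 3 6 3
  rw [← h]
  simp [rl, br, ee, Fin.sum_univ_succ]
  try ring

theorem d144 (X : M7 K) (hX : X ∈ g2 K) : (2) * X 0 1 + (1) * X 4 0 = 0 := by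
  have h := rule X hX 1 4 4
  rw [← h]
  simp [rl, br, ee, Fin.sum_univ_succ]
  try ring

theorem d255 (X : M7 K) (hX : X ∈ g2 K) : (2) * X 0 2 + (1) * X 5 0 = 0 := by
  have h := rule X hX 2 5 5
  rw [← h]
  simp [rl, br, ee, Fin.sum_univ_succ]
  try ring

theorem d366 (X : M7 K) (hX : X ∈ g2 K) : (2) * X 0 3 + (1) * X 6 0 = 0 := by
  have h := rule X hX 3 6 6
  rw [← h]
  simp [rl, br, ee, Fin.sum_univ_succ]
  try ring

theorem d231 (X : M7 K) (hX : X ∈ g2 K) : (2) * X 1 4 = 0 := by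
  have h := rule X hX 2 3 1
  rw [← h]
  simp [rl, br, ee, Fin.sum_univ_succ]
  try ring

theorem d131 (X : M7 K) (hX : X ∈ g2 K) : (2) * X 0 3 + (-2) * X 1 5 = 0 := by
  have h := rule X hX 1 3 1
  rw [← h]
  simp [rl, br, ee, Fin.sum_univ_succ]
  try ring

theorem d121 (X : M7 K) (hX : X ∈ g2 K) : (2) * X 0 2 + (2) * X 1 6 = 0 := by
  have h := rule X hX 1 2 1
  rw [← h]
  simp [rl, br, ee, Fin.sum_univ_succ]
  try ring

theorem d232 (X : M7 K) (hX : X ∈ g2 K) : (2) * X 0 3 + (2) * X 2 4 = 0 := by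
  have h := rule X hX 2 3 2
  rw [← h]
  simp [rl, br, ee, Fin.sum_univ_succ]
  try ring

theorem d132 (X : M7 K) (hX : X ∈ g2 K) : (-2) * X 2 5 = 0 := by
  have h := rule X hX 1 3 2
  rw [← h]
  simp [rl, br, ee, Fin.sum_univ_succ]
  try ring

theorem d122 (X : M7 K) (hX : X ∈ g2 K) : (-2) * X 0 1 + (2) * X 2 6 = 0 := by
  have h := rule X hX 1 2 2
  rw [← h]
  simp [rl, br, ee, Fin.sum_univ_succ]
  try ring

theorem d233 (X : M7 K) (hX : X ∈ g2 K) : (-2) * X 0 2 + (2) * X 3 4 = 0 := by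
  have h := rule X hX 2 3 3
  rw [← h]
  simp [rl, br, ee, Fin.sum_univ_succ]
  try ring

theorem d133 (X : M7 K) (hX : X ∈ g2 K) : (-2) * X 0 1 + (-2) * X 3 5 = 0 := by
  have h := rule X hX 1 3 3
  rw [← h]
  simp [rl, br, ee, Fin.sum_univ_succ]
  try ring

theorem d123 (X : M7 K) (hX : X ∈ g2 K) : (2) * X 3 6 = 0 := by
  have h := rule X hX 1 2 3
  rw [← h]
  simp [rl, br, ee, Fin.sum_univ_succ]
  try ring

theorem d153 (X : M7 K) (hX : X ∈ g2 K) : (2) * X 4 1 = 0 := by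
  have h := rule X hX 1 5 3
  rw [← h]
  simp [rl, br, ee, Fin.sum_univ_succ]
  try ring

theorem d262 (X : M7 K) (hX : X ∈ g2 K) : (2) * X 0 6 + (-2) * X 4 2 = 0 := by
  have h := rule X hX 2 6 2
  rw [← h]
  simp [rl, br, ee, Fin.sum_univ_succ]
  try ring

theorem d353 (X : M7 K) (hX : X ∈ g2 K) : (2) * X 0 5 + (2) * X 4 3 = 0 := by
  have h := rule X hX 3 5 3
  rw [← h]
  simp [rl, br, ee, Fin.sum_univ_succ]
  try ring

theorem d161 (X : M7 K) (hX : X ∈ g2 K) : (2) * X 0 6 + (2) * X 5 1 = 0 := by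
  have h := rule X hX 1 6 1
  rw [← h]
  simp [rl, br, ee, Fin.sum_univ_succ]
  try ring

theorem d243 (X : M7 K) (hX : X ∈ g2 K) : (-2) * X 5 2 = 0 := by
  have h := rule X hX 2 4 3
  rw [← h]
  simp [rl, br, ee, Fin.sum_univ_succ]
  try ring

theorem d343 (X : M7 K) (hX : X ∈ g2 K) : (2) * X 0 4 + (-2) * X 5 3 = 0 := by
  have h := rule X hX 3 4 3
  rw [← h]
  simp [rl, br, ee, Fin.sum_univ_succ]
  try ring

theorem d151 (X : M7 K) (hX : X ∈ g2 K) : (2) * X 0 5 + (-2) * X 6 1 = 0 := by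
  have h := rule X hX 1 5 1
  rw [← h]
  simp [rl, br, ee, Fin.sum_univ_succ]
  try ring

theorem d242 (X : M7 K) (hX : X ∈ g2 K) : (2) * X 0 4 + (2) * X 6 2 = 0 := by
  have h := rule X hX 2 4 2
  rw [← h]
  simp [rl, br, ee, Fin.sum_univ_succ]
  try ring

theorem d342 (X : M7 K) (hX : X ∈ g2 K) : (2) * X 6 3 = 0 := by
  have h := rule X hX 3 4 2
  rw [← h]
  simp [rl, br, ee, Fin.sum_univ_succ]
  try ring

theorem d140 (X : M7 K) (hX : X ∈ g2 K) : (1) * X 0 0 + (-1) * X 1 1 + (-1) * X 4 4 = 0 := by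
  have h := rule X hX 1 4 0
  rw [← h]
  simp [rl, br, ee, Fin.sum_univ_succ]
  try ring

theorem d150 (X : M7 K) (hX : X ∈ g2 K) : (-1) * X 2 1 + (-1) * X 4 5 = 0 := by
  have h := rule X hX 1 5 0
  rw [← h]
  simp [rl, br, ee, Fin.sum_univ_succ]
  try ring

theorem d160 (X : M7 K) (hX : X ∈ g2 K) : (-1) * X 3 1 + (-1) * X 4 6 = 0 := by
  have h := rule X hX 1 6 0
  rw [← h]
  simp [rl, br, ee, Fin.sum_univ_succ]
  try ring

theorem d240 (X : M7 K) (hX : X ∈ g2 K) : (-1) * X 1 2 + (-1) * X 5 4 = 0 := by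
  have h := rule X hX 2 4 0
  rw [← h]
  simp [rl, br, ee, Fin.sum_univ_succ]
  try ring

theorem d250 (X : M7 K) (hX : X ∈ g2 K) : (1) * X 0 0 + (-1) * X 2 2 + (-1) * X 5 5 = 0 := by
  have h := rule X hX 2 5 0
  rw [← h]
  simp [rl, br, ee, Fin.sum_univ_succ]
  try ring

theorem d260 (X : M7 K) (hX : X ∈ g2 K) : (-1) * X 3 2 + (-1) * X 5 6 = 0 := by
  have h := rule X hX 2 6 0
  rw [← h]
  simp [rl, br, ee, Fin.sum_univ_succ]
  try ring

theorem d340 (X : M7 K) (hX : X ∈ g2 K) : (-1) * X 1 3 + (-1) * X 6 4 = 0 := by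
  have h := rule X hX 3 4 0
  rw [← h]
  simp [rl, br, ee, Fin.sum_univ_succ]
  try ring

theorem d350 (X : M7 K) (hX : X ∈ g2 K) : (-1) * X 2 3 + (-1) * X 6 5 = 0 := by
  have h := rule X hX 3 5 0
  rw [← h]
  simp [rl, br, ee, Fin.sum_univ_succ]
  try ring

theorem d360 (X : M7 K) (hX : X ∈ g2 K) : (1) * X 0 0 + (-1) * X 3 3 + (-1) * X 6 6 = 0 := by
  have h := rule X hX 3 6 0
  rw [← h]
  simp [rl, br, ee, Fin.sum_univ_succ]
  try ring

theorem d234 (X : M7 K) (hX : X ∈ g2 K) : (-2) * X 2 2 + (-2) * X 3 3 + (2) * X 4 4 = 0 := by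
  have h := rule X hX 2 3 4
  rw [← h]
  simp [rl, br, ee, Fin.sum_univ_succ]
  try ring

theorem mem_of_gM (f : Fin 14 → K) : gM f ∈ g2 K := by
  intro x y
  funext i
  fin_cases i <;>
    simp [gM, br, mulVec, dotProduct, Fin.sum_univ_succ] <;> ring

/-- The parameters of a derivation. -/
def pr (X : M7 K) : Fin 14 → K :=
  ![X 1 1, X 2 2, X 1 2, X 1 3, X 2 1, X 2 3, X 3 1, X 3 2, -X 0 4, -X 0 5, -X 0 6, -X 0 1,
    -X 0 2, -X 0 3]

theorem eq_gM [CharZero K] (X : M7 K) (hX : X ∈ g2 K) : X = gM (pr X) := by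
  ext i j
  fin_cases i <;> fin_cases j
  · simp [gM, pr]
    linear_combination (-1/2 : K) * d011 X hX
  · simp [gM, pr]
  · simp [gM, pr]
  · simp [gM, pr]
  · simp [gM, pr]
  · simp [gM, pr]
  · simp [gM, pr]
  · simp [gM, pr]
    linear_combination (1 : K) * d141 X hX
  · simp [gM, pr]
  · simp [gM, pr]
  · simp [gM, pr]
  · simp [gM, pr]
    linear_combination (1/2 : K) * d231 X hX
  · simp [gM, pr]
    linear_combination (-1/2 : K) * d131 X hX
  · simp [gM, pr]
    linear_combination (1/2 : K) * d121 X hX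
  · simp [gM, pr]
    linear_combination (1 : K) * d252 X hX
  · simp [gM, pr]
  · simp [gM, pr]
  · simp [gM, pr]
  · simp [gM, pr]
    linear_combination (1/2 : K) * d232 X hX
  · simp [gM, pr]
    linear_combination (-1/2 : K) * d132 X hX
  · simp [gM, pr]
    linear_combination (1/2 : K) * d122 X hX
  · simp [gM, pr]
    linear_combination (1 : K) * d363 X hX
  · simp [gM, pr]
  · simp [gM, pr]
  · simp [gM, pr]
    linear_combination (-1/2 : K) * d011 X hX + (-1 : K) * d140 X hX + (-1/2 : K) * d234 X hX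
  · simp [gM, pr]
    linear_combination (1/2 : K) * d233 X hX
  · simp [gM, pr]
    linear_combination (-1/2 : K) * d133 X hX
  · simp [gM, pr]
    linear_combination (1/2 : K) * d123 X hX
  · simp [gM, pr]
    linear_combination (1 : K) * d144 X hX
  · simp [gM, pr]
    linear_combination (1/2 : K) * d153 X hX
  · simp [gM, pr]
    linear_combination (-1/2 : K) * d262 X hX
  · simp [gM, pr]
    linear_combination (1/2 : K) * d353 X hX
  · simp [gM, pr]
    linear_combination (-1/2 : K) * d011 X hX + (-1 : K) * d140 X hX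
  · simp [gM, pr]
    linear_combination (-1 : K) * d150 X hX
  · simp [gM, pr]
    linear_combination (-1 : K) * d160 X hX
  · simp [gM, pr]
    linear_combination (1 : K) * d255 X hX
  · simp [gM, pr]
    linear_combination (1/2 : K) * d161 X hX
  · simp [gM, pr]
    linear_combination (-1/2 : K) * d243 X hX
  · simp [gM, pr]
    linear_combination (-1/2 : K) * d343 X hX
  · simp [gM, pr]
    linear_combination (-1 : K) * d240 X hX
  · simp [gM, pr]
    linear_combination (-1/2 : K) * d011 X hX + (-1 : K) * d250 X hX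
  · simp [gM, pr]
    linear_combination (-1 : K) * d260 X hX
  · simp [gM, pr]
    linear_combination (1 : K) * d366 X hX
  · simp [gM, pr]
    linear_combination (-1/2 : K) * d151 X hX
  · simp [gM, pr]
    linear_combination (1/2 : K) * d242 X hX
  · simp [gM, pr]
    linear_combination (1/2 : K) * d342 X hX
  · simp [gM, pr]
    linear_combination (-1 : K) * d340 X hX
  · simp [gM, pr]
    linear_combination (-1 : K) * d350 X hX
  · simp [gM, pr]
    linear_combination (1 : K) * d140 X hX + (-1 : K) * d360 X hX + (1/2 : K) * d234 X hX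

/-- PARAM. -/
theorem param (K : Type*) [Field K] [CharZero K] : PARAM_S K := by
  intro X
  constructor
  · intro hX
    exact ⟨pr X, eq_gM X hX⟩
  · rintro ⟨f, rfl⟩
    exact mem_of_gM f

end Pool.Agent.Lib.MP_d55432_al.G2.H70
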